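import Mathlib
import Pool.Agent.H759R2.Kad.Props5
import Pool.Agent.H759R2.Kad.Props6

/-!
Inclusions of factors with a normal conditional expectation have the weak relative Dixmier
property: definitions and statements of the pieces.
-/

set_option autoImplicit false

open scoped ComplexOrder InnerProductSpace
open Finset Filter

noncomputable section

namespace Pool.Agent.Y187.WQ

open H759R2.Kad (IsFac IsPr Prj Fnt)

section defs

variable {H : Type} [NormedAddCommGroup H] [InnerProductSpace ℂ H] [CompleteSpace H]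

/-- A finite convex combination of inner automorphisms given by unitaries of `N` that commute
with `q`. -/
structure Avg (N : VonNeumannAlgebra H) (q : H →L[ℂ] H) : Type 1 where
  /-- index set -/
  ι : Type
  /-- it is finite -/
  fin : Fintype ι
  /-- weights -/
  t : ι → ℝ
  /-- unitaries -/
  u : ι → (H →L[ℂ] H)
  ht : ∀ k, 0 ≤ t k
  hs : ∑ k, t k = 1
  hu : ∀ k, u k ∈ unitary (H →L[ℂ] H)
  hN : ∀ k, u k ∈ N
  hq : ∀ k, u k * q = q * u k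

/-- The convex combination applied to `z`. -/
def Avg.ap {N : VonNeumannAlgebra H} {q : H →L[ℂ] H} (α : Avg N q) (z : H →L[ℂ] H) : H →L[ℂ] H :=
  letI := α.fin
  ∑ k, ((α.t k : ℝ) : ℂ) • (α.u k * z * star (α.u k))

/-- `y` is in the closure, in the weak operator topology, of the convex hull of the conjugates
`u x u*`, `u` a unitary of `N`. -/
def Hull (N : VonNeumannAlgebra H) (x y : H →L[ℂ] H) : Prop :=
  ∀ (n : ℕ) (ξ η : Fin n → H) (ε : ℝ), 0 < ε →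
    ∃ z ∈ convexHull ℝ
        {T : H →L[ℂ] H | ∃ u ∈ unitary (H →L[ℂ] H), u ∈ N ∧ T = u * x * star u},
      ∀ i : Fin n, ‖⟪η i, (z - y) (ξ i)⟫_ℂ‖ < ε

/-- `E` is a normal conditional expectation of `M` onto `N` (only its values on `M` matter). -/
structure IsCE (N M : VonNeumannAlgebra H) (E : (H →L[ℂ] H) → (H →L[ℂ] H)) : Prop where
  sub : ∀ a ∈ N, a ∈ M
  mem : ∀ x ∈ M, E x ∈ N
  add : ∀ x ∈ M, ∀ y ∈ M, E (x + y) = E x + E y
  smul : ∀ c : ℂ, ∀ x ∈ M, E (c • x) = c • E x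
  one : E 1 = 1
  bim : ∀ a ∈ N, ∀ b ∈ N, ∀ x ∈ M, E (a * x * b) = a * E x * b
  pos : ∀ x ∈ M, 0 ≤ x → 0 ≤ E x
  normal : ∀ (ι : Type) (l : Filter ι) (x : ι → (H →L[ℂ] H)) (y : H →L[ℂ] H),
    (∀ i, x i ∈ M) → y ∈ M → (∃ r : ℝ, ∀ i, ‖x i‖ ≤ r) →
    (∀ ξ η : H, Tendsto (fun i => ⟪η, x i ξ⟫_ℂ) l (nhds ⟪η, y ξ⟫_ℂ)) →
    ∀ ξ η : H, Tendsto (fun i => ⟪η, E (x i) ξ⟫_ℂ) l (nhds ⟪η, E y ξ⟫_ℂ)

/-- The functional `x ↦ ∑ j, ⟨ξ j, x ξ j⟩` is faithful on `q N q` and satisfies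
`ψ(x x*) ≤ 2 ψ(x* x)` there. -/
structure NT (N : VonNeumannAlgebra H) (q : H →L[ℂ] H) (n : ℕ) (ξ : Fin n → H) : Prop where
  tr : ∀ x ∈ N, q * x * q = x → ∑ j, ‖star x (ξ j)‖ ^ 2 ≤ 2 * ∑ j, ‖x (ξ j)‖ ^ 2
  fa : ∀ x ∈ N, x * q = x → (∀ j, x (ξ j) = 0) → x = 0

/-- Good projections: for `ξ` in a set `X` separating for `q N q`, positive elements `a` of
`q N q` have averages that are at least a multiple of `⟨ξ, a ξ⟩ q`. -/
def Good (N : VonNeumannAlgebra H) (q : H →L[ℂ] H) : Prop :=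
  ∃ X : Set H, (∀ x ∈ N, x * q = x → (∀ ξ ∈ X, x ξ = 0) → x = 0) ∧
    ∀ ξ ∈ X, ∃ C : ℝ, 0 < C ∧ ∀ a ∈ N, 0 ≤ a → q * a * q = a → ∀ ε : ℝ, 0 < ε →
      ∃ α : Avg N q, (((⟪ξ, a ξ⟫_ℂ).re / C - ε : ℝ) : ℂ) • q ≤ α.ap a

end defs

/-- Families of copies of subprojections of `p` that exhaust the unit. -/
def W_fam : Prop :=
  ∀ (H : Type) [NormedAddCommGroup H] [InnerProductSpace ℂ H] [CompleteSpace H]
    [TopologicalSpace.SeparableSpace H] (N : VonNeumannAlgebra H), IsFac N →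
    ∀ p ∈ N, IsPr p → p ≠ 0 → ∃ w : ℕ → (H →L[ℂ] H),
      (∀ i, w i ∈ N ∧ w i * star (w i) * w i = w i ∧ w i * p = w i) ∧
      (∀ i j, i ≠ j → star (w i) * w j = 0) ∧ ∀ x : H →L[ℂ] H, (∀ i, x * w i = 0) → x = 0

/-- Dixmier averaging in corners. -/
def W_dix : Prop :=
  ∀ (H : Type) [NormedAddCommGroup H] [InnerProductSpace ℂ H] [CompleteSpace H]
    (N : VonNeumannAlgebra H), IsFac N → ∀ q ∈ N, IsPr q → ∀ a ∈ N, star a = a →
    q * a * q = a → ∀ ε : ℝ, 0 < ε → ∃ (α : Avg N q) (l : ℝ), ‖α.ap a - ((l : ℝ) : ℂ) • q‖ ≤ ε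

/-- Nearly tracial corners. -/
def W_exnt : Prop :=
  ∀ (H : Type) [NormedAddCommGroup H] [InnerProductSpace ℂ H] [CompleteSpace H]
    (N : VonNeumannAlgebra H) (s : N.toStarSubalgebra), Prj s → s ≠ 0 → Fnt s →
    ∃ p ∈ N, IsPr p ∧ p ≠ 0 ∧ ∃ ξ : H, NT N p 1 (fun _ => ξ)

/-- Sums of copies. -/
def W_sum : Prop :=
  ∀ (H : Type) [NormedAddCommGroup H] [InnerProductSpace ℂ H] [CompleteSpace H]
    (N : VonNeumannAlgebra H) (p : H →L[ℂ] H), p ∈ N → IsPr p → ∀ ξ : H,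
    NT N p 1 (fun _ => ξ) → ∀ (n : ℕ) (w : Fin n → (H →L[ℂ] H)),
      (∀ i, w i ∈ N ∧ w i * star (w i) * w i = w i ∧ w i * p = w i) →
      (∀ i j, i ≠ j → star (w i) * w j = 0) →
      NT N (∑ j, w j * star (w j)) n (fun j => w j ξ)

/-- Nearly tracial corners of factors are good. -/
def W_good : Prop :=
  ∀ (H : Type) [NormedAddCommGroup H] [InnerProductSpace ℂ H] [CompleteSpace H]
    (N : VonNeumannAlgebra H), IsFac N → ∀ q ∈ N, IsPr q → ∀ (n : ℕ) (ξ : Fin n → H),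
    NT N q n ξ → Good N q

/-- In a factor without finite projections every nonzero projection contains a copy of the
unit. -/
def W_inf3 : Prop :=
  ∀ (H : Type) [NormedAddCommGroup H] [InnerProductSpace ℂ H] [CompleteSpace H]
    [TopologicalSpace.SeparableSpace H] (N : VonNeumannAlgebra H), IsFac N →
    (∀ s : N.toStarSubalgebra, Prj s → Fnt s → s = 0) → ∀ e ∈ N, IsPr e → e ≠ 0 →
    ∃ V ∈ N, star V * V = 1 ∧ e * V = V

/-- Such factors are good. -/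
def W_good3 : Prop :=
  ∀ (H : Type) [NormedAddCommGroup H] [InnerProductSpace ℂ H] [CompleteSpace H]
    (N : VonNeumannAlgebra H), (∀ e ∈ N, IsPr e → e ≠ 0 → ∃ V ∈ N, star V * V = 1 ∧ e * V = V) →
    Good N 1

/-- The minimisation argument. -/
def W_min : Prop :=
  ∀ (H : Type) [NormedAddCommGroup H] [InnerProductSpace ℂ H] [CompleteSpace H]
    (N M : VonNeumannAlgebra H) (E : (H →L[ℂ] H) → (H →L[ℂ] H)), IsCE N M E →
    (∀ w ∈ M, E (star w * w) = 0 → w = 0) → ∀ q ∈ N, IsPr q → Good N q → ∀ x ∈ M,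
    ∃ y ∈ M, ‖y‖ ≤ ‖x‖ ∧ Hull N x y ∧ ∀ a ∈ N, q * a * q = a → a * (q * y * q) = q * y * q * a

/-- Normal expectations of irreducible inclusions are faithful. -/
def W_faithful : Prop :=
  ∀ (H : Type) [NormedAddCommGroup H] [InnerProductSpace ℂ H] [CompleteSpace H]
    (N M : VonNeumannAlgebra H) (E : (H →L[ℂ] H) → (H →L[ℂ] H)), IsCE N M E →
    (∀ z ∈ M, (∀ y ∈ N, z * y = y * z) → ∃ c : ℂ, z = c • (1 : H →L[ℂ] H)) →
    ∀ w ∈ M, E (star w * w) = 0 → w = 0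

/-- Limits along an exhausting sequence of projections. -/
def W_limit : Prop :=
  ∀ (H : Type) [NormedAddCommGroup H] [InnerProductSpace ℂ H] [CompleteSpace H]
    (N M : VonNeumannAlgebra H) (x : H →L[ℂ] H) (q y : ℕ → (H →L[ℂ] H)),
    (∀ n, q n ∈ N ∧ IsPr (q n)) → (∀ m n, m ≤ n → q n * q m = q m) →
    (∀ ζ : H, Tendsto (fun n => q n ζ) atTop (nhds ζ)) →
    (∀ n, y n ∈ M ∧ ‖y n‖ ≤ ‖x‖ ∧ Hull N x (y n) ∧
      ∀ a ∈ N, q n * a * q n = a → a * (q n * y n * q n) = q n * y n * q n * a) →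
    ∃ z ∈ M, Hull N x z ∧ ∀ a ∈ N, z * a = a * z

/-- The main theorem. -/
def W_main : Prop :=
  ∀ (H : Type) [NormedAddCommGroup H] [InnerProductSpace ℂ H] [CompleteSpace H]
    [TopologicalSpace.SeparableSpace H] (N M : VonNeumannAlgebra H)
    (E : (H →L[ℂ] H) → (H →L[ℂ] H)), IsFac N → IsCE N M E →
    (∀ w ∈ M, E (star w * w) = 0 → w = 0) → ∀ x ∈ M,
    ∃ z ∈ M, Hull N x z ∧ ∀ a ∈ N, z * a = a * z

/-- The sums of the projections onto an exhausting sequence of copies converge to the unit. -/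
def W_str : Prop :=
  ∀ (H : Type) [NormedAddCommGroup H] [InnerProductSpace ℂ H] [CompleteSpace H]
    (w : ℕ → (H →L[ℂ] H)), (∀ i, w i * star (w i) * w i = w i) →
    (∀ i j, i ≠ j → star (w i) * w j = 0) → (∀ x : H →L[ℂ] H, (∀ i, x * w i = 0) → x = 0) →
    (∀ n, IsPr (∑ i ∈ range n, w i * star (w i))) ∧
    (∀ m n, m ≤ n → (∑ i ∈ range n, w i * star (w i)) * (∑ i ∈ range m, w i * star (w i)) =
      ∑ i ∈ range m, w i * star (w i)) ∧
    ∀ ζ : H, Tendsto (fun n => (∑ i ∈ range n, w i * star (w i)) ζ) atTop (nhds ζ)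

/-- Commuting with unitaries is enough, in corners. -/
def W_span : Prop :=
  ∀ (H : Type) [NormedAddCommGroup H] [InnerProductSpace ℂ H] [CompleteSpace H]
    (N : VonNeumannAlgebra H) (q : H →L[ℂ] H), q ∈ N → IsPr q → ∀ y : H →L[ℂ] H,
    (∀ u ∈ unitary (H →L[ℂ] H), u ∈ N → u * q = q * u → q * (u * y * star u) * q = q * y * q) →
    ∀ a ∈ N, q * a * q = a → a * (q * y * q) = q * y * q * a

/-- Lower semicontinuity at zero. -/
def W_cs : Prop :=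
  ∀ (H : Type) [NormedAddCommGroup H] [InnerProductSpace ℂ H] [CompleteSpace H]
    (N M : VonNeumannAlgebra H) (E : (H →L[ℂ] H) → (H →L[ℂ] H)), IsCE N M E →
    ∀ (ι : Type) (l : Filter ι) [l.NeBot] (w : ι → (H →L[ℂ] H)) (v : H →L[ℂ] H),
    (∀ i, w i ∈ M) → v ∈ M → (∃ r : ℝ, ∀ i, ‖w i‖ ≤ r) →
    (∀ ξ η : H, Tendsto (fun i => ⟪η, w i ξ⟫_ℂ) l (nhds ⟪η, v ξ⟫_ℂ)) → ∀ ξ : H,
    Tendsto (fun i => (⟪ξ, E (star (w i) * w i) ξ⟫_ℂ).re) l (nhds 0) →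
    ⟪ξ, E (star v * v) ξ⟫_ℂ = 0

/-- Weak limits of bounded sequences in von Neumann algebras. -/
def W_wl : Prop :=
  ∀ (H : Type) [NormedAddCommGroup H] [InnerProductSpace ℂ H] [CompleteSpace H]
    (M : VonNeumannAlgebra H) (y : ℕ → (H →L[ℂ] H)) (r : ℝ), (∀ n, y n ∈ M) →
    (∀ n, ‖y n‖ ≤ r) → ∃ (U : Ultrafilter ℕ) (z : H →L[ℂ] H), (U : Filter ℕ) ≤ atTop ∧
      z ∈ M ∧ ‖z‖ ≤ r ∧ ∀ ξ η : H, Tendsto (fun n => ⟪η, y n ξ⟫_ℂ) U (nhds ⟪η, z ξ⟫_ℂ)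

/-- Jensen's inequality for the quadratic expression of the minimisation argument. -/
def W_jen : Prop :=
  ∀ (H : Type) [NormedAddCommGroup H] [InnerProductSpace ℂ H] [CompleteSpace H]
    (N M : VonNeumannAlgebra H) (E : (H →L[ℂ] H) → (H →L[ℂ] H)), IsCE N M E →
    ∀ q ∈ N, IsPr q → ∀ y ∈ M, ∀ α : Avg N q,
      E (q * star (α.ap y) * q * α.ap y * q) ≤ α.ap (E (q * star y * q * y * q))

end Pool.Agent.Y187.WQ
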