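import Mathlib
import Pool.Agent.Y187.WQ.Stm

/-!
Averages: composition, halving, norms, hulls.
-/

set_option autoImplicit false
set_option linter.style.haveILetI false

open scoped ComplexOrder InnerProductSpace
open Finset Filter

noncomputable section

namespace Pool.Agent.Y187.WQ

open H759R2.Kad (IsFac IsPr Prj Fnt)

variable {H : Type} [NormedAddCommGroup H] [InnerProductSpace ℂ H] [CompleteSpace H]
variable {N : VonNeumannAlgebra H} {q : H →L[ℂ] H}

namespace Avg

/-- A single unitary. -/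
def one (u : H →L[ℂ] H) (hu : u ∈ unitary (H →L[ℂ] H)) (hN : u ∈ N) (hq : u * q = q * u) :
    Avg N q where
  ι := Unit
  fin := inferInstance
  t := fun _ => 1
  u := fun _ => u
  ht := fun _ => zero_le_one
  hs := by simp
  hu := fun _ => hu
  hN := fun _ => hN
  hq := fun _ => hq

theorem one_ap (u : H →L[ℂ] H) (hu : u ∈ unitary (H →L[ℂ] H)) (hN : u ∈ N) (hq : u * q = q * u)
    (z : H →L[ℂ] H) : (one u hu hN hq).ap z = u * z * star u := by
  simp [ap, one]

/-- The identity and a unitary, with weights `1/2`. -/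
def half (u : H →L[ℂ] H) (hu : u ∈ unitary (H →L[ℂ] H)) (hN : u ∈ N) (hq : u * q = q * u) :
    Avg N q where
  ι := Bool
  fin := inferInstance
  t := fun _ => 1 / 2
  u := fun b => if b then u else 1
  ht := fun _ => by norm_num
  hs := by simp
  hu := fun b => by cases b <;> simp [hu, one_mem]
  hN := fun b => by cases b <;> simp [hN, one_mem]
  hq := fun b => by cases b <;> simp [hq]

theorem half_ap (u : H →L[ℂ] H) (hu : u ∈ unitary (H →L[ℂ] H)) (hN : u ∈ N) (hq : u * q = q * u)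
    (z : H →L[ℂ] H) : (half u hu hN hq).ap z =
      ((1 / 2 : ℝ) : ℂ) • (u * z * star u) + ((1 / 2 : ℝ) : ℂ) • z := by
  have h1 : (half u hu hN hq).ap z = ∑ b : Bool, ((1 / 2 : ℝ) : ℂ) •
      ((if b then u else 1) * z * star (if b then u else 1)) := rfl
  rw [h1, Fintype.sum_bool]
  simp

/-- Composition. -/
def comp (α β : Avg N q) : Avg N q where
  ι := α.ι × β.ι
  fin := letI := α.fin; letI := β.fin; inferInstance
  t := fun k => α.t k.1 * β.t k.2
  u := fun k => α.u k.1 * β.u k.2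
  ht := fun k => mul_nonneg (α.ht _) (β.ht _)
  hs := by
    letI := α.fin
    letI := β.fin
    rw [Fintype.sum_prod_type]
    simp only [← Finset.mul_sum]
    have h1 : ∑ k, β.t k = 1 := β.hs
    have h2 : ∑ k, α.t k = 1 := α.hs
    simp only [h1, mul_one, h2]
  hu := fun k => mul_mem (α.hu _) (β.hu _)
  hN := fun k => mul_mem (α.hN _) (β.hN _)
  hq := fun k => by rw [mul_assoc, β.hq, ← mul_assoc, α.hq, mul_assoc]

theorem comp_ap (α β : Avg N q) (z : H →L[ℂ] H) : (comp α β).ap z = α.ap (β.ap z) := by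
  letI := α.fin
  letI := β.fin
  have h1 : (comp α β).ap z = ∑ k : α.ι × β.ι, ((α.t k.1 * β.t k.2 : ℝ) : ℂ) •
      (α.u k.1 * β.u k.2 * z * star (α.u k.1 * β.u k.2)) := rfl
  have h2 : ∀ y, α.ap y = ∑ k, ((α.t k : ℝ) : ℂ) • (α.u k * y * star (α.u k)) := fun y => rfl
  have h3 : β.ap z = ∑ k, ((β.t k : ℝ) : ℂ) • (β.u k * z * star (β.u k)) := rfl
  rw [h1, h2, h3, Fintype.sum_prod_type]
  refine Finset.sum_congr rfl fun i _ => ?_
  rw [Finset.mul_sum, Finset.sum_mul, Finset.smul_sum]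
  refine Finset.sum_congr rfl fun j _ => ?_
  rw [mul_smul_comm, smul_mul_assoc, smul_smul, star_mul, Complex.ofReal_mul]
  simp only [mul_assoc]

variable (α : Avg N q)

theorem ap_def (z : H →L[ℂ] H) : α.ap z =
    @Finset.sum _ _ _ (@Finset.univ _ α.fin) fun k => ((α.t k : ℝ) : ℂ) •
      (α.u k * z * star (α.u k)) := rfl

theorem sum_t : @Finset.sum _ _ _ (@Finset.univ _ α.fin) (fun k => ((α.t k : ℝ) : ℂ)) = 1 := by
  letI := α.fin
  rw [← Complex.ofReal_sum]
  have : ∑ k, α.t k = 1 := α.hs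
  rw [this, Complex.ofReal_one]

theorem ap_mem {M : VonNeumannAlgebra H} (h : ∀ a ∈ N, a ∈ M) {z : H →L[ℂ] H} (hz : z ∈ M) :
    α.ap z ∈ M := by
  letI := α.fin
  rw [ap_def]
  refine sum_mem fun k _ => ?_
  have h1 : α.u k * z * star (α.u k) ∈ M :=
    mul_mem (mul_mem (h _ (α.hN k)) hz) (star_mem (h _ (α.hN k)))
  exact M.toStarSubalgebra.smul_mem h1 _

theorem ap_sub (y z : H →L[ℂ] H) : α.ap (y - z) = α.ap y - α.ap z := by
  letI := α.fin
  rw [ap_def, ap_def, ap_def, ← Finset.sum_sub_distrib]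
  refine Finset.sum_congr rfl fun k _ => ?_
  rw [mul_sub, sub_mul, smul_sub]

theorem ap_smul_q (c : ℂ) : α.ap (c • q) = c • q := by
  letI := α.fin
  rw [ap_def]
  have h1 : ∀ k, α.u k * (c • q) * star (α.u k) = c • q := by
    intro k
    rw [mul_smul_comm, smul_mul_assoc, α.hq k, mul_assoc, (Unitary.mem_iff.1 (α.hu k)).2, mul_one]
  simp only [h1]
  rw [← Finset.sum_smul, sum_t, one_smul]

theorem norm_ap_le (z : H →L[ℂ] H) : ‖α.ap z‖ ≤ ‖z‖ := by
  letI := α.fin
  rw [ap_def]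
  refine (norm_sum_le _ _).trans ?_
  have h1 : ∀ k, ‖((α.t k : ℝ) : ℂ) • (α.u k * z * star (α.u k))‖ ≤ α.t k * ‖z‖ := by
    intro k
    rw [norm_smul, Complex.norm_real, Real.norm_eq_abs, abs_of_nonneg (α.ht k)]
    refine mul_le_mul_of_nonneg_left ?_ (α.ht k)
    rw [CStarRing.norm_mul_mem_unitary _ (Unitary.star_mem (α.hu k)),
      CStarRing.norm_mem_unitary_mul _ (α.hu k)]
  refine (Finset.sum_le_sum fun k _ => h1 k).trans ?_
  rw [← Finset.sum_mul]
  have : ∑ k, α.t k = 1 := α.hs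
  rw [this, one_mul]

theorem ap_hull (x : H →L[ℂ] H) : α.ap x ∈ convexHull ℝ
    {T : H →L[ℂ] H | ∃ u ∈ unitary (H →L[ℂ] H), u ∈ N ∧ T = u * x * star u} := by
  letI := α.fin
  rw [ap_def]
  have h1 : ∀ k, ((α.t k : ℝ) : ℂ) • (α.u k * x * star (α.u k)) =
      α.t k • (α.u k * x * star (α.u k)) := fun k => Complex.coe_smul _ _
  simp only [h1]
  refine (convex_convexHull ℝ _).sum_mem (fun k _ => α.ht k) α.hs fun k _ => ?_
  exact subset_convexHull ℝ _ ⟨α.u k, α.hu k, α.hN k, rfl⟩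

end Avg

end Pool.Agent.Y187.WQ
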